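import Pool.Agent.H992.SF.Defs

/-!
# SF/PEEL: removing the fastest function (subtask of helper992, by helper289)
-/

set_option autoImplicit false
open MeasureTheory Filter Topology Complex ProbabilityTheory
open scoped ContDiff ENNReal

namespace Pool.Agent.H289.SF

open Pool.Agent.W745.RW (TF)
open Pool.Agent.N661.BR (MW lin IsStationary IsErgodic)
open Pool.Agent.N661.BH (HP area frames loc LocalLaws)
open Pool.Agent.N814.BHM (P mass)
open Pool.Agent.N814.BHASM (Hyp ex ex_norm ex_meas chr)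
open Pool.Agent.H992.LB (eγ eX SX fs SX_add SX_meas SX_fs eX_ex val_lin val_fs val)
open Pool.Agent.H992.SF

theorem ex_zero (lam : ℝ) (u : ℂ → ℝ) {k : ℕ} (t : Fin k → ℝ) (ht : t = 0) (w : Fin k → ℂ)
    (p : ℂ × (ℝ × Bool)) : ex lam u (fun j => (t j : ℂ)) w p = 1 := by
  unfold ex
  rw [ht]
  simp

theorem prod_split {d : ℕ} (i₀ : Fin d) (F : Fin d → ℂ) (h : ∀ i, i < i₀ → F i = 1) :
    ∏ i, F i = F i₀ * ∏ i ∈ Finset.univ.filter (fun i => i₀ < i), F i := by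
  rw [← Finset.prod_filter_mul_prod_filter_not Finset.univ (fun i => i₀ < i), mul_comm]
  congr 1
  refine Finset.prod_eq_single i₀ (fun b hb hne => ?_) fun hn => ?_
  · rw [Finset.mem_filter] at hb
    exact h b (lt_of_le_of_ne (not_lt.1 hb.2) hne)
  · exact (hn (Finset.mem_filter.2 ⟨Finset.mem_univ _, lt_irrefl i₀⟩)).elim

/-- the statistic as an additive map -/
noncomputable def sA (lam : ℝ) (u : ℂ → ℝ) (p : ℂ × (ℝ × Bool)) : (ℂ →₀ ℝ) →+ ℝ :=
  AddMonoidHom.mk' (fun τ => (SX lam u τ p).re) fun τ τ' => by rw [SX_add, Complex.add_re]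

theorem sA_eX (lam : ℝ) (u : ℂ → ℝ) (τ : ℂ →₀ ℝ) (p : ℂ × (ℝ × Bool)) :
    Complex.exp (I * (sA lam u p τ : ℝ)) = eX lam u τ p := rfl

theorem eX_fs (lam : ℝ) (u : ℂ → ℝ) {k : ℕ} (w : Fin k → ℂ) (t : Fin k → ℝ)
    (p : ℂ × (ℝ × Bool)) : eX lam u (fs w t) p = ex lam u (fun j => (t j : ℂ)) w p := by
  unfold eX ex
  rw [SX_fs]

/-- the convergence of the characteristic functions -/
theorem conv {Ω : Set ℂ} {lam : ℕ → ℝ} {u : ℕ → ℂ → ℝ} (H : Hyp Ω lam u) {m : Measure MW}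
    (hloc : LocalLaws Ω lam u m) (τ : ℂ →₀ ℝ) :
    Tendsto (fun n => ∫ p, eX (lam n) (u n) τ p ∂(P Ω)) atTop (𝓝 (∫ f, eγ τ f ∂m)) := by
  have h1 := hloc _ (Pool.Agent.H992.LB.pt τ) (fun j => τ (Pool.Agent.H992.LB.pt τ j))
  have e1 : (∫ f, Complex.exp (I * (lin (Pool.Agent.H992.LB.pt τ)
      (fun j => τ (Pool.Agent.H992.LB.pt τ j)) f : ℝ)) ∂m) = ∫ f, eγ τ f ∂m := by
    refine integral_congr_ae (Eventually.of_forall fun f => ?_)
    simp only [eγ, val_lin]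
  rw [e1] at h1
  refine h1.congr' ?_
  have hsm : ∀ᶠ n in atTop, ∀ j, 1 / √(lam n) * ‖Pool.Agent.H992.LB.pt τ j‖ < 1 :=
    Filter.eventually_all.2 fun j => Pool.Agent.N814.BHASM.small H _
  filter_upwards [hsm] with n hn
  have h2 := chr H (n := n) (fun j => ((τ (Pool.Agent.H992.LB.pt τ j) : ℝ) : ℂ))
    (Pool.Agent.H992.LB.pt τ) hn
  simp only [Complex.ofReal_re] at h2
  rw [← h2]
  simp_rw [eX_ex]

theorem peel (h0 : S_ABS) (h1 : S_LINV) (h2 : S_BRIDGE) : S_PEEL := by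
  intro d Ω lam u H hsep i₀ m hm herg hloc ψ hψ k w t ht
  have := Pool.Agent.N814.BHASM.probP (H i₀)
  set S : Finset (Fin d) := Finset.univ.filter (fun i => i₀ < i) with hS
  -- the test function
  set B : ℕ → ℂ × (ℝ × Bool) → ℂ := fun n p => (ψ p.1 : ℂ) *
    ∏ i ∈ S, ex (lam i n) (u i n) (fun j => (t i j : ℂ)) (w i) p with hB
  have hψm : Measurable fun p : ℂ × (ℝ × Bool) => ψ p.1 :=
    hψ.1.continuous.measurable.comp measurable_fst
  have hBm : ∀ n, Measurable (B n) := fun n =>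
    (Complex.measurable_ofReal.comp hψm).mul
      (Finset.measurable_fun_prod _ fun i _ => ex_meas ((H i).sm n) _ _)
  obtain ⟨C, hC⟩ := hψ.1.continuous.bounded_above_of_compact_support hψ.2.1
  have hBb : ∃ C : ℝ, ∀ n z, ‖B n z‖ ≤ C := by
    refine ⟨C, fun n p => ?_⟩
    rw [hB]
    simp only [norm_mul, norm_prod, ex_norm, Finset.prod_const_one, mul_one]
    rw [Complex.norm_real]
    exact hC _
  have hstat : IsStationary m := Pool.Agent.N40.BRSTATH.STATH Ω (H i₀).op (H i₀).sub (H i₀).ne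
    (H i₀).int (lam i₀) (H i₀).pos (H i₀).lim (u i₀) (H i₀).sm (H i₀).eq (H i₀).qe m hm
    ⟨id, strictMono_id, hloc⟩
  have hA := h0 (ℂ × (ℝ × Bool)) inferInstance (P Ω) inferInstance
    (fun n p => sA (lam i₀ n) (u i₀ n) p)
    (fun n τ => Complex.measurable_re.comp (SX_meas ((H i₀).sm n) τ)) B hBm hBb m hm hstat herg
    (fun τ => conv (H i₀) hloc τ)
    (fun τ x => h1 d Ω lam u H i₀ S (fun i hi => hsep i₀ i (Finset.mem_filter.1 hi).2) ψ hψ τ x k
      t w) (fs (w i₀) (t i₀))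
  have e1 : ∫ f, eγ (fs (w i₀) (t i₀)) f ∂m =
      ∫ f, Complex.exp (I * (lin (w i₀) (t i₀) f : ℝ)) ∂m := by
    refine integral_congr_ae (Eventually.of_forall fun f => ?_)
    simp only [eγ, val_fs]
  rw [e1] at hA
  have hA2 := hA.const_mul (mass Ω : ℂ)
  rw [mul_zero] at hA2
  refine hA2.congr' ?_
  filter_upwards [h2 d Ω lam u H i₀.pos ψ hψ k w t,
    h2 d Ω lam u H i₀.pos ψ hψ k w (Function.update t i₀ 0)] with n hn1 hn2
  rw [hn1, hn2]
  have e2 : ∀ p, (ψ p.1 : ℂ) * ∏ i, ex (lam i n) (u i n) (fun j => (t i j : ℂ)) (w i) p =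
      Complex.exp (I * (sA (lam i₀ n) (u i₀ n) p (fs (w i₀) (t i₀)) : ℝ)) * B n p := by
    intro p
    rw [sA_eX, eX_fs, hB, prod_split i₀ _ fun i hi => ex_zero _ _ _ (ht i hi) _ _]
    ring
  have e3 : ∀ p, (ψ p.1 : ℂ) * ∏ i, ex (lam i n) (u i n)
      (fun j => ((Function.update t i₀ 0 i j : ℝ) : ℂ)) (w i) p = B n p := by
    intro p
    rw [prod_split i₀ _ fun i hi => ex_zero _ _ _ (by
      rw [Function.update_of_ne hi.ne, ht i hi]) _ _,
      ex_zero _ _ _ (Function.update_self i₀ 0 t), one_mul, hB]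
    simp only
    congr 1
    refine Finset.prod_congr rfl fun i hi => ?_
    rw [Function.update_of_ne (Finset.mem_filter.1 hi).2.ne']
  simp_rw [e2, e3]
  ring

end Pool.Agent.H289.SF
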